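import Mathlib

set_option autoImplicit false

/-! # Hilbert-Schmidt norms and orthogonal decompositions -/

namespace Pool.Agent.Helper29.PR

open Finset
open scoped ComplexConjugate

section

variable {V : Type*} [SeminormedAddCommGroup V] [InnerProductSpace ℂ V] {n : ℕ}

/-- the vectors of the standard basis -/
noncomputable abbrev eb (n : ℕ) (h : Fin n) : EuclideanSpace ℂ (Fin n) := EuclideanSpace.single h (1 : ℂ)

lemma eb_sum (c : EuclideanSpace ℂ (Fin n)) : c = ∑ h : Fin n, c h • eb n h := by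
  ext i
  simp [Finset.sum_apply, eb, Pi.single_apply]

lemma hs {ι : Type*} [Fintype ι] (B : OrthonormalBasis ι ℂ (EuclideanSpace ℂ (Fin n)))
    (R : EuclideanSpace ℂ (Fin n) →ₗ[ℂ] V) :
    ∑ k, ‖R (B k)‖ ^ 2 = ∑ h, ‖R (eb n h)‖ ^ 2 := by
  have h1 : ∀ c : EuclideanSpace ℂ (Fin n), ((‖R c‖ ^ 2 : ℝ) : ℂ) =
      ∑ h, ∑ h', conj (c h) * c h' * inner ℂ (R (eb n h)) (R (eb n h')) := by
    intro c
    have e1 : ((‖R c‖ ^ 2 : ℝ) : ℂ) = inner ℂ (R c) (R c) := by
      rw [inner_self_eq_norm_sq_to_K]; push_cast; rfl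
    have e2 : R c = ∑ h : Fin n, c h • R (eb n h) := by
      conv_lhs => rw [eb_sum c]
      rw [map_sum]
      simp_rw [map_smul]
    rw [e1, e2, sum_inner]
    refine sum_congr rfl fun h _ => ?_
    rw [inner_sum]
    refine sum_congr rfl fun h' _ => ?_
    rw [inner_smul_left, inner_smul_right, mul_assoc]
  have h2 : ((∑ k, ‖R (B k)‖ ^ 2 : ℝ) : ℂ) = ((∑ h, ‖R (eb n h)‖ ^ 2 : ℝ) : ℂ) := by
    rw [Complex.ofReal_sum, Complex.ofReal_sum]
    simp_rw [h1 (B _)]
    rw [sum_comm]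
    refine sum_congr rfl fun h _ => ?_
    rw [sum_comm]
    have h3 : ∀ h' : Fin n, ∑ k, conj (B k h) * B k h' * inner ℂ (R (eb n h)) (R (eb n h')) =
        if h' = h then inner ℂ (R (eb n h)) (R (eb n h')) else 0 := by
      intro h'
      rw [← sum_mul]
      have h4 := B.sum_inner_mul_inner (eb n h') (eb n h)
      have h5 : ∀ k, inner ℂ (eb n h') (B k) * inner ℂ (B k) (eb n h) = conj (B k h) * B k h' := by
        intro k
        simp [eb, EuclideanSpace.inner_single_left, EuclideanSpace.inner_single_right]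
        ring
      simp_rw [h5] at h4
      rw [h4]
      simp only [eb, EuclideanSpace.inner_single_left, map_one, one_mul]
      split_ifs with h6
      · rw [h6]; simp
      · simp [h6]
    simp_rw [h3]
    rw [sum_ite_eq']
    simp only [mem_univ, if_true]
    rw [inner_self_eq_norm_sq_to_K]
    push_cast
    rfl
  exact_mod_cast h2

/-- an orthonormal basis adapted to a subspace -/
lemma exists_onb (M : Submodule ℂ (EuclideanSpace ℂ (Fin n))) :
    ∃ B : OrthonormalBasis (Fin (Module.finrank ℂ M) ⊕ Fin (Module.finrank ℂ Mᗮ)) ℂ (EuclideanSpace ℂ (Fin n)),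
      (∀ i, B (Sum.inl i) ∈ M) ∧ ∀ j, B (Sum.inr j) ∈ Mᗮ := by
  obtain ⟨b, hb⟩ : ∃ b, b = stdOrthonormalBasis ℂ M := ⟨_, rfl⟩
  obtain ⟨d, hd⟩ : ∃ d, d = stdOrthonormalBasis ℂ Mᗮ := ⟨_, rfl⟩
  obtain ⟨f, hf⟩ : ∃ f : Fin (Module.finrank ℂ M) ⊕ Fin (Module.finrank ℂ Mᗮ) → EuclideanSpace ℂ (Fin n),
    f = Sum.elim (fun i => (b i : EuclideanSpace ℂ (Fin n))) (fun j => (d j : EuclideanSpace ℂ (Fin n))) := ⟨_, rfl⟩
  have hon : Orthonormal ℂ f := by
    rw [orthonormal_iff_ite]
    rintro (i | i) (j | j)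
    · rw [hf]
      simp only [Sum.elim_inl, Sum.inl.injEq]
      have := orthonormal_iff_ite.1 b.orthonormal i j
      rw [← this]; rfl
    · rw [hf]
      simp only [Sum.elim_inl, Sum.elim_inr, reduceCtorEq, if_false]
      exact (Submodule.mem_orthogonal M _).1 (d j).2 _ (b i).2
    · rw [hf]
      simp only [Sum.elim_inl, Sum.elim_inr, reduceCtorEq, if_false]
      exact (Submodule.mem_orthogonal' M _).1 (d i).2 _ (b j).2
    · rw [hf]
      simp only [Sum.elim_inr, Sum.inr.injEq]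
      have := orthonormal_iff_ite.1 d.orthonormal i j
      rw [← this]; rfl
  have hcard : Fintype.card (Fin (Module.finrank ℂ M) ⊕ Fin (Module.finrank ℂ Mᗮ)) =
      Module.finrank ℂ (EuclideanSpace ℂ (Fin n)) := by
    rw [Fintype.card_sum, Fintype.card_fin, Fintype.card_fin, Submodule.finrank_add_finrank_orthogonal]
  rcases isEmpty_or_nonempty (Fin (Module.finrank ℂ M) ⊕ Fin (Module.finrank ℂ Mᗮ)) with he | he
  · have h0 : Module.finrank ℂ (EuclideanSpace ℂ (Fin n)) = 0 := by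
      rw [← hcard]; exact Fintype.card_eq_zero
    have hs : Subsingleton (EuclideanSpace ℂ (Fin n)) := Module.finrank_zero_iff.1 h0
    refine ⟨OrthonormalBasis.mk hon ?_, fun i => (he.false (Sum.inl i)).elim, fun j => (he.false (Sum.inr j)).elim⟩
    intro x _
    rw [Subsingleton.elim x 0]
    exact Submodule.zero_mem _
  · obtain ⟨bb, hbb⟩ : ∃ bb : Module.Basis (Fin (Module.finrank ℂ M) ⊕ Fin (Module.finrank ℂ Mᗮ)) ℂ (EuclideanSpace ℂ (Fin n)),
        ⇑bb = f := ⟨basisOfOrthonormalOfCardEqFinrank hon hcard, coe_basisOfOrthonormalOfCardEqFinrank hon hcard⟩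
    refine ⟨OrthonormalBasis.mk hon ?_, fun i => ?_, fun j => ?_⟩
    · rw [← hbb, bb.span_eq]
    · rw [OrthonormalBasis.coe_mk, hf]
      exact (b i).2
    · rw [OrthonormalBasis.coe_mk, hf]
      exact (d j).2

end

end Pool.Agent.Helper29.PR
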