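import Pool.Agent.Helper29.PR.Herg
import Pool.Agent.Helper29.PR.HS
import Pool.Graph.R_seed8.Helper112.LS

set_option autoImplicit false

/-! # Spectral measures of sequences near subspaces of small dimension -/

namespace Pool.Agent.Helper29.PR

open Finset MeasureTheory Filter Topology
open Pool.Agent.R296.SM (int_of_cont fourier_mul_conj)
open scoped ComplexConjugate

section

variable {V : Type*} [SeminormedAddCommGroup V] [InnerProductSpace ℂ V] {n : ℕ}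

/-- synthesis -/
noncomputable def Tm (n : ℕ) (v : ℕ → V) : EuclideanSpace ℂ (Fin n) →ₗ[ℂ] V where
  toFun c := ∑ h : Fin n, c h • v h
  map_add' c d := by simp [add_smul, sum_add_distrib]
  map_smul' r c := by simp [smul_sum, mul_smul]

lemma Tm_apply (v : ℕ → V) (c : EuclideanSpace ℂ (Fin n)) : Tm n v c = ∑ h : Fin n, c h • v h := rfl

lemma Tm_eb (v : ℕ → V) (h : Fin n) : Tm n v (eb n h) = v h := by
  rw [Tm_apply, sum_eq_single h]
  · simp [eb]
  · intro b _ hb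
    simp [eb, hb]
  · simp

/-- the vector of exponentials -/
noncomputable def ev (n : ℕ) (η : UnitAddCircle) : EuclideanSpace ℂ (Fin n) :=
  WithLp.toLp 2 fun h => conj (fourier (h : ℤ) η : ℂ)

lemma inner_ev (η : UnitAddCircle) (c : EuclideanSpace ℂ (Fin n)) :
    inner ℂ (ev n η) c = ∑ h : Fin n, c h * fourier (h : ℤ) η := by
  simp only [PiLp.inner_apply, RCLike.inner_apply, ev]
  refine sum_congr rfl fun h _ => ?_
  rw [RCLike.conj_conj]

lemma norm_fourier (k : ℤ) (η : UnitAddCircle) : ‖(fourier k η : ℂ)‖ = 1 := by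
  rw [fourier_apply]; exact Circle.norm_coe _

lemma norm_ev (η : UnitAddCircle) : ‖ev n η‖ ^ 2 = n := by
  rw [EuclideanSpace.norm_sq_eq]
  simp only [ev, RCLike.norm_conj, norm_fourier]
  simp

lemma cont_inner_ev (c : EuclideanSpace ℂ (Fin n)) : Continuous fun η => inner ℂ (ev n η) c := by
  simp_rw [inner_ev]
  exact continuous_finsetSum _ fun h _ => continuous_const.mul (map_continuous _)

/-- the norm of a combination -/
lemma norm_Tm (v : ℕ → V) (σ : Measure UnitAddCircle) [IsFiniteMeasure σ]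
    (hσ : ∀ i j : ℕ, inner ℂ (v i) (v j) = ∫ η, (fourier ((j : ℤ) - i) η : ℂ) ∂σ) (c : EuclideanSpace ℂ (Fin n)) :
    ‖Tm n v c‖ ^ 2 = ∫ η, ‖inner ℂ (ev n η) c‖ ^ 2 ∂σ := by
  have h1 : ((‖Tm n v c‖ ^ 2 : ℝ) : ℂ) = ∑ i : Fin n, ∑ j : Fin n, conj (c i) * c j *
      ∫ η, (fourier (((j : ℕ) : ℤ) - (i : ℕ)) η : ℂ) ∂σ := by
    have e1 : ((‖Tm n v c‖ ^ 2 : ℝ) : ℂ) = inner ℂ (Tm n v c) (Tm n v c) := by
      rw [inner_self_eq_norm_sq_to_K]; push_cast; rfl
    rw [e1, Tm_apply, sum_inner]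
    refine sum_congr rfl fun i _ => ?_
    rw [inner_sum]
    refine sum_congr rfl fun j _ => ?_
    rw [inner_smul_left, inner_smul_right, hσ, mul_assoc]
  have h2 : ∀ η, ((‖inner ℂ (ev n η) c‖ ^ 2 : ℝ) : ℂ) = ∑ i : Fin n, ∑ j : Fin n, conj (c i) * c j *
      (fourier (((j : ℕ) : ℤ) - (i : ℕ)) η : ℂ) := by
    intro η
    rw [inner_ev]
    have : ((‖∑ h : Fin n, c h * fourier (h : ℤ) η‖ ^ 2 : ℝ) : ℂ) =
        conj (∑ h : Fin n, c h * fourier (h : ℤ) η) * ∑ h : Fin n, c h * fourier (h : ℤ) η := by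
      rw [Complex.conj_mul']
      push_cast
      rfl
    rw [this, map_sum, sum_mul_sum]
    refine sum_congr rfl fun i _ => sum_congr rfl fun j _ => ?_
    rw [map_mul, ← fourier_mul_conj]
    ring
  have h3 : ((∫ η, ‖inner ℂ (ev n η) c‖ ^ 2 ∂σ : ℝ) : ℂ) = ∑ i : Fin n, ∑ j : Fin n, conj (c i) * c j *
      ∫ η, (fourier (((j : ℕ) : ℤ) - (i : ℕ)) η : ℂ) ∂σ := by
    rw [← integral_complex_ofReal]
    simp_rw [h2]
    rw [integral_finsetSum _ fun k _ => ?_]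
    · refine sum_congr rfl fun k _ => ?_
      rw [integral_finsetSum _ fun l _ => ?_]
      · exact sum_congr rfl fun l _ => integral_const_mul _ _
      · exact int_of_cont (continuous_const.mul (map_continuous _)) σ
    · exact int_of_cont (continuous_finsetSum _ fun l _ => continuous_const.mul (map_continuous _)) σ
  exact_mod_cast h1.trans h3.symm

/-- the large sieve on the circle -/
lemma sieve (hn : 1 ≤ n) (F : Finset UnitAddCircle) (hF : ∀ y ∈ F, ∀ z ∈ F, y ≠ z → 1 / (n : ℝ) ≤ ‖y - z‖)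
    (c : EuclideanSpace ℂ (Fin n)) : ∑ y ∈ F, ‖inner ℂ (ev n y) c‖ ^ 2 ≤ 12 * n * ‖c‖ ^ 2 := by
  classical
  obtain ⟨ξ, hξ⟩ : ∃ ξ : UnitAddCircle → ℝ, ∀ y, ((ξ y : ℝ) : UnitAddCircle) = y :=
    ⟨fun y => Quotient.out y, fun y => Quotient.out_eq y⟩
  obtain ⟨α, hα⟩ : ∃ α : ℕ → ℂ, α = fun m => if h : m - 1 < n then c ⟨m - 1, h⟩ else 0 := ⟨_, rfl⟩
  have hsep : ∀ r ∈ F, ∀ s ∈ F, r ≠ s → Pool.Agent.Helper112.lsSep n (ξ s - ξ r) := by
    intro r hr s hs hrs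
    have h1 := hF s hs r hr hrs.symm
    rw [← hξ s, ← hξ r, ← AddCircle.coe_sub, UnitAddCircle.norm_eq, abs_sub_round_eq_min] at h1
    have h2 := le_min_iff.1 h1
    exact ⟨h2.1, by linarith [h2.2]⟩
  have h1 := Pool.Agent.Helper112.ls_general F ξ n n hn hsep α
  have hre : ∀ {G : Type} [AddCommMonoid G] (f : ℕ → G), ∑ m ∈ Icc 1 n, f m = ∑ h : Fin n, f (h + 1) := by
    intro G _ f
    rw [Fin.sum_univ_eq_sum_range (fun h => f (h + 1)) n, Finset.range_eq_Ico, Finset.sum_Ico_add' f 0 n 1]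
    rfl
  have hα1 : ∀ h : Fin n, α ((h : ℕ) + 1) = c h := by
    intro h
    rw [hα]
    simp only [Nat.add_sub_cancel, h.2, dif_pos]
  have h2 : ∀ y ∈ F, ‖∑ m ∈ Icc 1 n, α m * Pool.Agent.Helper112.ee (m * ξ y)‖ = ‖inner ℂ (ev n y) c‖ := by
    intro y _
    have e1 : ∑ m ∈ Icc 1 n, α m * Pool.Agent.Helper112.ee (m * ξ y) =
        Pool.Agent.Helper112.ee (ξ y) * ∑ h : Fin n, c h * fourier (h : ℤ) y := by
      rw [hre, mul_sum]
      refine sum_congr rfl fun h _ => ?_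
      rw [hα1]
      have e2 : (fourier ((h : ℕ) : ℤ) y : ℂ) = Pool.Agent.Helper112.ee ((h : ℕ) * ξ y) := by
        conv_lhs => rw [← hξ y]
        rw [fourier_coe_apply]
        unfold Pool.Agent.Helper112.ee
        push_cast
        congr 1
        ring
      rw [e2]
      unfold Pool.Agent.Helper112.ee
      rw [mul_left_comm, ← Complex.exp_add]
      congr 2
      push_cast
      ring
    rw [e1, norm_mul, Pool.Agent.Helper112.ls_norm_ee, one_mul, inner_ev]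
  have h3 : ∑ m ∈ Icc 1 n, ‖α m‖ ^ 2 = ‖c‖ ^ 2 := by
    rw [hre, EuclideanSpace.norm_sq_eq]
    exact sum_congr rfl fun h _ => by rw [hα1]
  rw [h3] at h1
  calc ∑ y ∈ F, ‖inner ℂ (ev n y) c‖ ^ 2 = ∑ y ∈ F, ‖∑ m ∈ Icc 1 n, α m * Pool.Agent.Helper112.ee (m * ξ y)‖ ^ 2 :=
        sum_congr rfl fun y hy => by rw [h2 y hy]
    _ ≤ 6 * ((n : ℝ) + n) * ‖c‖ ^ 2 := h1
    _ = _ := by ring

/-- **few arcs carry the spectral measure of a sequence which is close to a subspace of small dimension** -/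
theorem arcs (v : ℕ → V) (σ : Measure UnitAddCircle) [IsFiniteMeasure σ]
    (hσ : ∀ i j : ℕ, inner ℂ (v i) (v j) = ∫ η, (fourier ((j : ℤ) - i) η : ℂ) ∂σ) (hn : 1 ≤ n)
    (W : Submodule ℂ V) [FiniteDimensional ℂ W] (w : ℕ → V) (hw : ∀ h < n, w h ∈ W) (δ : ℝ)
    (hδ : ∑ h ∈ range n, ‖v h - w h‖ ^ 2 ≤ δ ^ 2 * n) :
    ∃ F : Finset UnitAddCircle, F.card ≤ 24 * Module.finrank ℂ W ∧
      σ.real {η | ∀ y ∈ F, 1 / (n : ℝ) ≤ ‖η - y‖} ≤ 2 * δ ^ 2 := by
  classical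
  have hn0 : (0 : ℝ) < n := by exact_mod_cast hn
  -- the orthogonal complement of the preimage of the complement of `W`
  obtain ⟨b, -⟩ : ∃ b, b = Module.finBasis ℂ W := ⟨_, rfl⟩
  obtain ⟨L, hL⟩ : ∃ L : EuclideanSpace ℂ (Fin n) →ₗ[ℂ] (Fin (Module.finrank ℂ W) → ℂ),
      ∀ c i, L c i = inner ℂ (b i : V) (Tm n v c) := by
    refine ⟨LinearMap.pi fun i => (innerₛₗ ℂ (b i : V)).comp (Tm n v), fun c i => ?_⟩
    rfl
  obtain ⟨M, hM⟩ : ∃ M, M = LinearMap.ker L := ⟨_, rfl⟩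
  have hdim : Module.finrank ℂ Mᗮ ≤ Module.finrank ℂ W := by
    have h1 := LinearMap.finrank_range_add_finrank_ker L
    have h2 := Submodule.finrank_add_finrank_orthogonal M
    have h3 : Module.finrank ℂ (LinearMap.range L) ≤ Module.finrank ℂ W := by
      refine (Submodule.finrank_le _).trans ?_
      simp
    rw [hM] at h2 ⊢
    omega
  have horth : ∀ c ∈ M, ∀ x ∈ W, inner ℂ x (Tm n v c) = 0 := by
    intro c hc x hx
    rw [hM, LinearMap.mem_ker] at hc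
    have h1 : (⟨x, hx⟩ : W) = ∑ i, b.repr ⟨x, hx⟩ i • b i := (b.sum_repr _).symm
    have h2 : x = ∑ i, b.repr ⟨x, hx⟩ i • (b i : V) := by
      have := congrArg (Submodule.subtype W) h1
      rw [map_sum] at this
      simpa using this
    rw [h2, sum_inner]
    refine sum_eq_zero fun i _ => ?_
    rw [inner_smul_left, ← hL, hc]
    simp
  obtain ⟨r, hr⟩ : ∃ r : ℕ → V, r = fun h => v h - w h := ⟨_, rfl⟩
  have hle : ∀ c ∈ M, ‖Tm n v c‖ ^ 2 ≤ ‖Tm n r c‖ ^ 2 := by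
    intro c hc
    have h1 : Tm n v c = Tm n w c + Tm n r c := by
      simp only [Tm_apply, hr]
      rw [← sum_add_distrib]
      refine sum_congr rfl fun h _ => ?_
      rw [← smul_add]
      congr 1
      abel
    have h2 : Tm n w c ∈ W := by
      rw [Tm_apply]
      exact Submodule.sum_mem _ fun h _ => Submodule.smul_mem _ _ (hw _ h.2)
    have h3 : ((‖Tm n v c‖ ^ 2 : ℝ) : ℂ) = inner ℂ (Tm n r c) (Tm n v c) := by
      have e1 : ((‖Tm n v c‖ ^ 2 : ℝ) : ℂ) = inner ℂ (Tm n v c) (Tm n v c) := by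
        rw [inner_self_eq_norm_sq_to_K]; push_cast; rfl
      rw [e1]
      conv_lhs => enter [2]; rw [h1]
      rw [inner_add_left, horth c hc _ h2, zero_add]
    have h4 : ‖Tm n v c‖ ^ 2 ≤ ‖Tm n r c‖ * ‖Tm n v c‖ := by
      have h5 := norm_inner_le_norm (𝕜 := ℂ) (Tm n r c) (Tm n v c)
      rw [← h3, Complex.norm_real, Real.norm_eq_abs, abs_of_nonneg (by positivity)] at h5
      exact h5
    have h6 : ‖Tm n v c‖ ≤ ‖Tm n r c‖ := by
      rcases (norm_nonneg (Tm n v c)).eq_or_lt with h0 | h0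
      · rw [← h0]; exact norm_nonneg _
      · rw [pow_two] at h4
        exact le_of_mul_le_mul_right h4 h0
    exact pow_le_pow_left₀ (norm_nonneg _) h6 2
  obtain ⟨B, hB1, hB2⟩ := exists_onb M
  have hsum : ∑ i, ‖Tm n v (B (Sum.inl i))‖ ^ 2 ≤ δ ^ 2 * n := by
    calc ∑ i, ‖Tm n v (B (Sum.inl i))‖ ^ 2 ≤ ∑ i, ‖Tm n r (B (Sum.inl i))‖ ^ 2 :=
          sum_le_sum fun i _ => hle _ (hB1 i)
      _ ≤ ∑ i, ‖Tm n r (B (Sum.inl i))‖ ^ 2 + ∑ j, ‖Tm n r (B (Sum.inr j))‖ ^ 2 :=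
          le_add_of_nonneg_right (sum_nonneg fun j _ => by positivity)
      _ = ∑ k, ‖Tm n r (B k)‖ ^ 2 := by rw [Fintype.sum_sum_type]
      _ = ∑ h : Fin n, ‖Tm n r (eb n h)‖ ^ 2 := hs B _
      _ = ∑ h : Fin n, ‖v h - w h‖ ^ 2 := by
          refine sum_congr rfl fun h _ => ?_
          rw [Tm_eb, hr]
      _ = ∑ h ∈ range n, ‖v h - w h‖ ^ 2 := Fin.sum_univ_eq_sum_range (fun h => ‖v h - w h‖ ^ 2) n
      _ ≤ _ := hδ
  obtain ⟨g, hg⟩ : ∃ g : UnitAddCircle → ℝ, g = fun η => ∑ i, ‖inner ℂ (ev n η) (B (Sum.inl i))‖ ^ 2 := ⟨_, rfl⟩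
  obtain ⟨g', hg'⟩ : ∃ g' : UnitAddCircle → ℝ, g' = fun η => ∑ j, ‖inner ℂ (ev n η) (B (Sum.inr j))‖ ^ 2 := ⟨_, rfl⟩
  have hgg : ∀ η, g η + g' η = n := by
    intro η
    rw [hg, hg', ← norm_ev (n := n) η, ← B.sum_sq_norm_inner_left (ev n η), Fintype.sum_sum_type]
  have hgc : Continuous g := by
    rw [hg]
    exact continuous_finsetSum _ fun i _ => (cont_inner_ev _).norm.pow 2
  have hgi : Integrable g σ := by
    have h1 : Integrable (fun η => ((g η : ℝ) : ℂ)) σ := int_of_cont (Complex.continuous_ofReal.comp hgc) σ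
    exact h1.re
  have hg0 : ∀ η, 0 ≤ g η := by
    intro η
    rw [hg]
    exact sum_nonneg fun i _ => by positivity
  have hgint : ∫ η, g η ∂σ ≤ δ ^ 2 * n := by
    rw [hg]
    rw [integral_finsetSum _ fun i _ => ?_]
    · refine le_trans (le_of_eq ?_) hsum
      exact sum_congr rfl fun i _ => (norm_Tm v σ hσ _).symm
    · have h1 : Integrable (fun η => ((‖inner ℂ (ev n η) (B (Sum.inl i))‖ ^ 2 : ℝ) : ℂ)) σ :=
        int_of_cont (Complex.continuous_ofReal.comp ((cont_inner_ev _).norm.pow 2)) σ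
      exact h1.re
  have hmark : σ.real {η | (n : ℝ) / 2 ≤ g η} ≤ 2 * δ ^ 2 := by
    have h1 := mul_meas_ge_le_integral_of_nonneg (μ := σ) (ae_of_all _ hg0) hgi ((n : ℝ) / 2)
    have h2 : (n : ℝ) / 2 * σ.real {η | (n : ℝ) / 2 ≤ g η} ≤ δ ^ 2 * n := h1.trans hgint
    have h3 : (n : ℝ) / 2 * σ.real {η | (n : ℝ) / 2 ≤ g η} ≤ (n : ℝ) / 2 * (2 * δ ^ 2) := by
      refine h2.trans (le_of_eq ?_)
      ring
    exact le_of_mul_le_mul_left h3 (by positivity)
  -- separated sets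
  obtain ⟨P, hP⟩ : ∃ P : Finset UnitAddCircle → Prop, P = fun F => (∀ y ∈ F, (n : ℝ) / 2 ≤ g' y) ∧
      ∀ y ∈ F, ∀ z ∈ F, y ≠ z → 1 / (n : ℝ) ≤ ‖y - z‖ := ⟨_, rfl⟩
  have hPcard : ∀ F, P F → F.card ≤ 24 * Module.finrank ℂ W := by
    intro F hF
    rw [hP] at hF
    have h1 : (F.card : ℝ) * ((n : ℝ) / 2) ≤ ∑ y ∈ F, g' y := by
      rw [← nsmul_eq_mul]
      exact card_nsmul_le_sum _ _ _ hF.1
    have h2 : ∑ y ∈ F, g' y ≤ 12 * n * Module.finrank ℂ Mᗮ := by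
      rw [hg', sum_comm]
      calc ∑ j : Fin (Module.finrank ℂ Mᗮ), ∑ y ∈ F, ‖inner ℂ (ev n y) (B (Sum.inr j))‖ ^ 2
          ≤ ∑ j : Fin (Module.finrank ℂ Mᗮ), (12 * (n : ℝ)) := by
            refine sum_le_sum fun j _ => ?_
            refine (sieve hn F hF.2 _).trans (le_of_eq ?_)
            rw [B.norm_eq_one, one_pow, mul_one]
        _ = _ := by
            rw [sum_const, card_univ, Fintype.card_fin, nsmul_eq_mul, mul_comm]
    have h3 : (F.card : ℝ) ≤ 24 * (Module.finrank ℂ Mᗮ : ℝ) := by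
      have h4 := h1.trans h2
      have h5 : (F.card : ℝ) * ((n : ℝ) / 2) ≤ (24 * (Module.finrank ℂ Mᗮ : ℝ)) * ((n : ℝ) / 2) := by
        refine h4.trans (le_of_eq ?_)
        ring
      exact le_of_mul_le_mul_right h5 (by positivity)
    have h4 : F.card ≤ 24 * Module.finrank ℂ Mᗮ := by exact_mod_cast h3
    exact h4.trans (Nat.mul_le_mul_left _ hdim)
  have hPemp : P ∅ := by
    rw [hP]
    simp
  obtain ⟨m, ⟨F, hF, hFm⟩, hmax⟩ : ∃ m, (∃ F, P F ∧ F.card = m) ∧ ∀ F, P F → F.card ≤ m := by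
    have hex : ∃ m, ∃ F, P F ∧ F.card = m := ⟨0, ∅, hPemp, card_empty⟩
    have hb : ∀ m, (∃ F, P F ∧ F.card = m) → m ≤ 24 * Module.finrank ℂ W := by
      rintro m ⟨F, hF, rfl⟩
      exact hPcard F hF
    refine ⟨Nat.findGreatest (fun m => ∃ F, P F ∧ F.card = m) (24 * Module.finrank ℂ W), ?_, ?_⟩
    · exact Nat.findGreatest_spec (P := fun m => ∃ F, P F ∧ F.card = m) (Nat.zero_le _) ⟨∅, hPemp, card_empty⟩
    · intro F hF
      exact Nat.le_findGreatest (hPcard F hF) ⟨F, hF, rfl⟩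
  refine ⟨F, hPcard F hF, le_trans ?_ hmark⟩
  refine measureReal_mono ?_
  intro η hη
  simp only [Set.mem_ofPred_eq] at hη ⊢
  by_contra hcon
  rw [not_le] at hcon
  have h1 : (n : ℝ) / 2 ≤ g' η := by
    have := hgg η
    linarith
  have h2 : η ∉ F := by
    intro h
    have h3 := hη η h
    rw [sub_self, norm_zero] at h3
    have : (0 : ℝ) < 1 / n := by positivity
    linarith
  have h3 : P (insert η F) := by
    rw [hP] at hF ⊢
    refine ⟨?_, ?_⟩
    · intro y hy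
      rcases mem_insert.1 hy with rfl | hy
      · exact h1
      · exact hF.1 y hy
    · intro y hy z hz hyz
      rcases mem_insert.1 hy with hy | hy <;> rcases mem_insert.1 hz with hz | hz
      · rw [hy, hz] at hyz; exact absurd rfl hyz
      · rw [hy]; exact hη z hz
      · rw [hz, norm_sub_rev]; exact hη y hy
      · exact hF.2 y hy z hz hyz
  have h4 := hmax _ h3
  rw [card_insert_of_notMem h2, hFm] at h4
  omega

end

end Pool.Agent.Helper29.PR
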