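import Mathlib
import Pool.Graph.R_seed8.Results.MP_7a8f48_an.InvariantSpectraHalf

set_option autoImplicit false

/-! # Measures carried by sets of small dimension -/

namespace Pool.Agent.Helper29.PR

open Finset MeasureTheory Filter Topology
open Pool.Agent.Results.MP_7a8f48_an.InvariantSpectraHalf (BelowHalf)

/-- Borel-Cantelli -/
lemma bc1 (σ : Measure UnitAddCircle) [IsFiniteMeasure σ] (n : ℕ → ℕ) (_hn : ∀ i, 1 ≤ n i)
    (htend : Tendsto n atTop atTop) (C r θ : ℝ) (hC : 0 ≤ C) (hr : 0 ≤ r) (hθ : 0 ≤ θ) (hrθ : r * θ < 1 / 2)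
    (hstep : ∀ i, (n (i + 1) : ℝ) ≤ C * (n i : ℝ) ^ θ) (F : ℕ → Finset UnitAddCircle)
    (hF : ∀ i, ((F i).card : ℝ) ≤ C * (n i : ℝ) ^ r) (e : ℕ → ℝ) (he : Summable e)
    (hσ : ∀ i, σ.real {η | ∀ y ∈ F i, 1 / (n i : ℝ) ≤ ‖η - y‖} ≤ e i) :
    ∃ K : ℕ → Set UnitAddCircle, (∀ i, BelowHalf (K i)) ∧ σ (⋃ i, K i)ᶜ = 0 := by
  obtain ⟨bad, hbad⟩ : ∃ bad : ℕ → Set UnitAddCircle, bad = fun i => {η | ∀ y ∈ F i, 1 / (n i : ℝ) ≤ ‖η - y‖} :=
    ⟨_, rfl⟩
  refine ⟨fun m => {η | ∀ i ≥ m, η ∉ bad i}, fun m => ?_, ?_⟩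
  · -- the dimension
    refine ⟨C * (n m : ℝ) ^ r + C * C ^ r, r * θ, hrθ, fun N hN => ?_⟩
    have hN1 : (1 : ℝ) ≤ N := by exact_mod_cast hN
    have hNp : (1 : ℝ) ≤ (N : ℝ) ^ (r * θ) := Real.one_le_rpow hN1 (by positivity)
    obtain ⟨i, hi1, hi2, hi3⟩ : ∃ i ≥ m, N ≤ n i ∧ ((F i).card : ℝ) ≤ (C * (n m : ℝ) ^ r + C * C ^ r) * (N : ℝ) ^ (r * θ) := by
      have hex : ∃ k, N ≤ n (m + k) := by
        obtain ⟨i, hi⟩ := (htend.eventually (eventually_ge_atTop N)).and (eventually_ge_atTop m) |>.exists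
        exact ⟨i - m, by rw [Nat.add_sub_cancel' hi.2]; exact hi.1⟩
      classical
      obtain ⟨k, hk1, hk2⟩ : ∃ k, N ≤ n (m + k) ∧ ∀ j < k, ¬ N ≤ n (m + j) :=
        ⟨Nat.find hex, Nat.find_spec hex, fun j hj => Nat.find_min hex hj⟩
      refine ⟨m + k, Nat.le_add_right _ _, hk1, ?_⟩
      rcases k with _ | k
      · refine (hF _).trans ?_
        rw [add_zero]
        calc C * (n m : ℝ) ^ r ≤ (C * (n m : ℝ) ^ r + C * C ^ r) * 1 := by
              rw [mul_one]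
              exact le_add_of_nonneg_right (by positivity)
          _ ≤ _ := by gcongr
      · have h1 : (n (m + k) : ℝ) ≤ N := by
          have := hk2 k (Nat.lt_succ_self k)
          push Not at this
          exact_mod_cast this.le
        refine (hF _).trans ?_
        calc C * (n (m + (k + 1)) : ℝ) ^ r ≤ C * (C * (n (m + k) : ℝ) ^ θ) ^ r := by
              gcongr
              exact hstep (m + k)
          _ ≤ C * (C * (N : ℝ) ^ θ) ^ r := by gcongr
          _ = (C * C ^ r) * (N : ℝ) ^ (r * θ) := by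
              rw [Real.mul_rpow hC (by positivity), ← Real.rpow_mul (by positivity), mul_comm θ r, mul_assoc]
          _ ≤ _ := by
              gcongr
              exact le_add_of_nonneg_left (by positivity)
    refine ⟨F i, hi3, fun x hx => ?_⟩
    have h1 := hx i hi1
    rw [hbad] at h1
    simp only [Set.mem_ofPred_eq, not_forall, not_le] at h1
    obtain ⟨y, hy, hxy⟩ := h1
    refine ⟨y, hy, hxy.le.trans ?_⟩
    have : (N : ℝ) ≤ n i := by exact_mod_cast hi2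
    gcongr
  · -- the measure
    have h1 : (⋃ m, {η | ∀ i ≥ m, η ∉ bad i})ᶜ = limsup bad atTop := by
      ext η
      rw [mem_limsup_iff_frequently_mem, Set.mem_compl_iff, Set.mem_iUnion, frequently_atTop]
      simp only [Set.mem_ofPred_eq, not_exists, not_forall, not_not]
      constructor
      · intro h m
        obtain ⟨i, hi, hi2⟩ := h m
        exact ⟨i, hi, hi2⟩
      · intro h m
        obtain ⟨i, hi, hi2⟩ := h m
        exact ⟨i, hi, hi2⟩
    rw [h1]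
    refine measure_limsup_atTop_eq_zero ?_
    have h2 : ∀ i, σ (bad i) ≤ ENNReal.ofReal (e i) := by
      intro i
      rw [hbad]
      refine (ENNReal.le_ofReal_iff_toReal_le (measure_ne_top _ _) ?_).2 (hσ i)
      exact measureReal_nonneg.trans (hσ i)
    refine ne_top_of_le_ne_top ?_ (ENNReal.tsum_le_tsum h2)
    have h3 : ∀ i, 0 ≤ e i := fun i => measureReal_nonneg.trans (hσ i)
    rw [← ENNReal.ofReal_tsum_of_nonneg h3 he]
    exact ENNReal.ofReal_ne_top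

/-- the growth of double exponentials -/
lemma growth (B p c : ℝ) (hp1 : p < 1) (hc : 0 < c) (τ : ℝ) (hτ : 0 < τ) :
    ∃ C : ℝ, ∀ i : ℕ, Real.exp (B * ((i : ℝ) + 1) ^ p) ≤ C + c * (1 + τ) ^ i := by
  have hl : 0 < Real.log (1 + τ) := Real.log_pos (by linarith)
  have h1 : ∀ᶠ i : ℕ in atTop, Real.exp (B * ((i : ℝ) + 1) ^ p) ≤ c * (1 + τ) ^ i := by
    have h2 : Tendsto (fun x : ℝ => x ^ (-(1 - p))) atTop (𝓝 0) := tendsto_rpow_neg_atTop (by linarith)
    have h3 : ∀ᶠ x : ℝ in atTop, x ^ (-(1 - p)) ≤ Real.log (1 + τ) / (2 * (|B| + 1)) :=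
      h2.eventually_le_const (by positivity)
    have h4 : Tendsto (fun i : ℕ => (i : ℝ) + 1) atTop atTop :=
      tendsto_atTop_add_const_right _ _ tendsto_natCast_atTop_atTop
    have h5 : ∀ᶠ i : ℕ in atTop, Real.log (1 + τ) - Real.log c ≤ (Real.log (1 + τ) / 2) * ((i : ℝ) + 1) :=
      (h4.const_mul_atTop (by positivity)).eventually_ge_atTop _
    filter_upwards [h4.eventually h3, h5] with i hi1 hi2
    have e0 : (0 : ℝ) < (i : ℝ) + 1 := by positivity
    replace hi1 : ((i : ℝ) + 1) ^ p ≤ (Real.log (1 + τ) / (2 * (|B| + 1))) * ((i : ℝ) + 1) := by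
      have e3 : ((i : ℝ) + 1) ^ p = ((i : ℝ) + 1) ^ (-(1 - p)) * ((i : ℝ) + 1) := by
        conv_rhs => enter [2]; rw [← Real.rpow_one ((i : ℝ) + 1)]
        rw [← Real.rpow_add e0]
        congr 1
        ring
      rw [e3]
      gcongr
    have e1 : B * ((i : ℝ) + 1) ^ p ≤ (Real.log (1 + τ) / 2) * ((i : ℝ) + 1) := by
      calc B * ((i : ℝ) + 1) ^ p ≤ (|B| + 1) * ((i : ℝ) + 1) ^ p := by
            gcongr
            linarith [le_abs_self B]
        _ ≤ (|B| + 1) * ((Real.log (1 + τ) / (2 * (|B| + 1))) * ((i : ℝ) + 1)) := by gcongr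
        _ = _ := by field_simp
    have e2 : c * (1 + τ) ^ i = Real.exp (Real.log c + i * Real.log (1 + τ)) := by
      rw [Real.exp_add, Real.exp_log hc, mul_comm (i : ℝ), Real.exp_mul, Real.exp_log (by linarith),
        Real.rpow_natCast]
    rw [e2, Real.exp_le_exp]
    linarith
  obtain ⟨N, hN⟩ := eventually_atTop.1 h1
  refine ⟨∑ i ∈ range N, Real.exp (B * ((i : ℝ) + 1) ^ p), fun i => ?_⟩
  rcases lt_or_ge i N with h | h
  · have h2 : Real.exp (B * ((i : ℝ) + 1) ^ p) ≤ ∑ i ∈ range N, Real.exp (B * ((i : ℝ) + 1) ^ p) :=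
      single_le_sum (f := fun i : ℕ => Real.exp (B * ((i : ℝ) + 1) ^ p)) (fun i _ => (Real.exp_pos _).le)
        (mem_range.2 h)
    have h3 : 0 ≤ c * (1 + τ) ^ i := by positivity
    linarith
  · have h2 : 0 ≤ ∑ i ∈ range N, Real.exp (B * ((i : ℝ) + 1) ^ p) := sum_nonneg fun i _ => (Real.exp_pos _).le
    linarith [hN i h]

/-- **measures whose mass is carried by few arcs at each scale** -/
theorem small_of (σ : Measure UnitAddCircle) [IsFiniteMeasure σ] (B D s : ℝ) (hD : D < 2) (hs : s < 1 / 2)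
    (H : ∀ n : ℕ, 1 ≤ n → ∀ δ : ℝ, 0 < δ → δ ≤ 1 → ∃ F : Finset UnitAddCircle,
      (F.card : ℝ) ≤ 24 * (Real.exp (Real.exp (B * δ ^ (-D))) * (n : ℝ) ^ s) ∧
      σ.real {η | ∀ y ∈ F, 1 / (n : ℝ) ≤ ‖η - y‖} ≤ 2 * δ ^ 2) :
    ∃ K : ℕ → Set UnitAddCircle, (∀ i, BelowHalf (K i)) ∧ σ (⋃ i, K i)ᶜ = 0 := by
  -- the parameters
  obtain ⟨s', hs'⟩ : ∃ s', s' = max s 0 := ⟨_, rfl⟩
  have hs0 : 0 ≤ s' := hs' ▸ le_max_right _ _
  have hss : s ≤ s' := hs' ▸ le_max_left _ _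
  have hs1 : s' < 1 / 2 := by rw [hs']; exact max_lt hs (by norm_num)
  obtain ⟨τ, hτ⟩ : ∃ τ, τ = (1 / 2 - s') / 4 := ⟨_, rfl⟩
  have hτ0 : 0 < τ := by rw [hτ]; linarith
  have hτ1 : (s' + τ) * (1 + τ) < 1 / 2 := by
    have h1 : τ ≤ 1 / 8 := by rw [hτ]; linarith
    have h2 : 4 * τ = 1 / 2 - s' := by rw [hτ]; ring
    nlinarith
  obtain ⟨D', hD'⟩ : ∃ D', D' = max D 1 := ⟨_, rfl⟩
  have hD1 : 1 ≤ D' := hD' ▸ le_max_right _ _
  have hDD : D ≤ D' := hD' ▸ le_max_left _ _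
  have hD2 : D' < 2 := by rw [hD']; exact max_lt hD (by norm_num)
  obtain ⟨κ, hκ⟩ : ∃ κ, κ = 1 / 4 + 1 / (2 * D') := ⟨_, rfl⟩
  have hκ1 : 1 / 2 < κ := by
    rw [hκ]
    have : 1 / 4 < 1 / (2 * D') := by
      apply one_div_lt_one_div_of_lt (by positivity)
      linarith
    linarith
  have hκ0 : 0 < κ := by linarith
  have hκ2 : κ * D' < 1 := by
    have h1 : κ * D' = D' / 4 + 1 / 2 := by
      rw [hκ]
      field_simp
    rw [h1]; linarith
  obtain ⟨C0, hC0⟩ := growth (max B 0) (κ * D') (τ * Real.log 2) hκ2 (mul_pos hτ0 (Real.log_pos (by norm_num))) τ hτ0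
  -- the scales
  obtain ⟨m, hm⟩ : ∃ m : ℕ → ℕ, m = fun i => ⌈(1 + τ) ^ i⌉₊ := ⟨_, rfl⟩
  have hm1 : ∀ i, (1 + τ) ^ i ≤ (m i : ℝ) := fun i => by rw [hm]; exact Nat.le_ceil _
  have hm2 : ∀ i, (m i : ℝ) ≤ (1 + τ) ^ i + 1 := fun i => by
    rw [hm]; exact (Nat.ceil_lt_add_one (by positivity)).le
  obtain ⟨δ, hδ⟩ : ∃ δ : ℕ → ℝ, δ = fun i : ℕ => ((i : ℝ) + 1) ^ (-κ) := ⟨_, rfl⟩
  have hδ0 : ∀ i, 0 < δ i := fun i => by rw [hδ]; positivity
  have hδ1 : ∀ i, δ i ≤ 1 := fun i => by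
    rw [hδ]
    exact Real.rpow_le_one_of_one_le_of_nonpos (by linarith [(Nat.cast_nonneg i : (0 : ℝ) ≤ i)]) (by linarith)
  have hn1 : ∀ i, 1 ≤ 2 ^ m i := fun i => Nat.one_le_two_pow
  choose F hF1 hF2 using fun i => H (2 ^ m i) (hn1 i) (δ i) (hδ0 i) (hδ1 i)
  have hC : (0 : ℝ) ≤ 24 * Real.exp C0 + 2 := by positivity
  refine bc1 σ (fun i => 2 ^ m i) hn1 ?_ (24 * Real.exp C0 + 2) (s' + τ) (1 + τ) hC (by positivity) (by positivity)
    hτ1 ?_ F ?_ (fun i => 2 * δ i ^ 2) ?_ ?_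
  · -- the scales tend to infinity
    have h1 : Tendsto m atTop atTop := by
      rw [hm]
      refine tendsto_nat_ceil_atTop.comp ?_
      exact tendsto_pow_atTop_atTop_of_one_lt (by linarith)
    exact (tendsto_pow_atTop_atTop_of_one_lt (by norm_num : 1 < 2)).comp h1
  · -- the steps
    intro i
    push_cast
    have h1 : (2 : ℝ) ^ (m (i + 1)) ≤ 2 * ((2 : ℝ) ^ (m i)) ^ (1 + τ) := by
      rw [← Real.rpow_natCast, ← Real.rpow_natCast, ← Real.rpow_mul (by norm_num)]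
      calc (2 : ℝ) ^ ((m (i + 1) : ℕ) : ℝ) ≤ 2 ^ (1 + (m i : ℝ) * (1 + τ)) := by
            apply Real.rpow_le_rpow_of_exponent_le (by norm_num)
            have h2 := hm2 (i + 1)
            have h3 := hm1 i
            rw [pow_succ] at h2
            nlinarith
        _ = _ := by rw [Real.rpow_add (by norm_num), Real.rpow_one]
    refine h1.trans ?_
    gcongr
    linarith [Real.exp_pos C0]
  · -- the cardinalities
    intro i
    refine (hF1 i).trans ?_
    have hpos : (1 : ℝ) ≤ ((2 ^ m i : ℕ) : ℝ) := by exact_mod_cast hn1 i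
    have h1 : Real.exp (Real.exp (B * δ i ^ (-D))) ≤ Real.exp C0 * ((2 ^ m i : ℕ) : ℝ) ^ τ := by
      have h2 : B * δ i ^ (-D) ≤ max B 0 * ((i : ℝ) + 1) ^ (κ * D') := by
        have e1 : δ i ^ (-D) ≤ δ i ^ (-D') := by
          apply Real.rpow_le_rpow_of_exponent_ge (hδ0 i) (hδ1 i)
          linarith
        have e2 : δ i ^ (-D') = ((i : ℝ) + 1) ^ (κ * D') := by
          rw [hδ]
          simp only
          rw [← Real.rpow_mul (by positivity)]
          congr 1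
          ring
        have e3 : 0 ≤ δ i ^ (-D) := by have := hδ0 i; positivity
        calc B * δ i ^ (-D) ≤ max B 0 * δ i ^ (-D) := by gcongr; exact le_max_left _ _
          _ ≤ max B 0 * δ i ^ (-D') := by
              gcongr
          _ = _ := by rw [e2]
      have h3 : Real.exp (B * δ i ^ (-D)) ≤ C0 + τ * Real.log 2 * (1 + τ) ^ i :=
        (Real.exp_le_exp.2 h2).trans (hC0 i)
      have h4 : C0 + τ * Real.log 2 * (1 + τ) ^ i ≤ C0 + Real.log 2 * m i * τ := by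
        have := mul_le_mul_of_nonneg_left (hm1 i) (mul_pos hτ0 (Real.log_pos (by norm_num : (1 : ℝ) < 2))).le
        linarith
      have h5 : ((2 ^ m i : ℕ) : ℝ) ^ τ = Real.exp (Real.log 2 * m i * τ) := by
        push_cast
        rw [← Real.rpow_natCast, ← Real.rpow_mul (by norm_num), Real.rpow_def_of_pos (by norm_num)]
        congr 1
        ring
      rw [h5, ← Real.exp_add, Real.exp_le_exp]
      exact h3.trans h4
    have h2 : ((2 ^ m i : ℕ) : ℝ) ^ s ≤ ((2 ^ m i : ℕ) : ℝ) ^ s' := Real.rpow_le_rpow_of_exponent_le hpos hss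
    calc 24 * (Real.exp (Real.exp (B * δ i ^ (-D))) * ((2 ^ m i : ℕ) : ℝ) ^ s)
        ≤ 24 * ((Real.exp C0 * ((2 ^ m i : ℕ) : ℝ) ^ τ) * ((2 ^ m i : ℕ) : ℝ) ^ s') := by gcongr
      _ = (24 * Real.exp C0) * (((2 ^ m i : ℕ) : ℝ) ^ (s' + τ)) := by
          rw [Real.rpow_add (by linarith)]
          ring
      _ ≤ _ := by
          gcongr
          linarith
  · -- summability
    refine Summable.mul_left _ ?_
    have h1 : ∀ i : ℕ, δ i ^ 2 = 1 / ((i + 1 : ℕ) : ℝ) ^ (2 * κ) := by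
      intro i
      rw [hδ]
      simp only
      rw [← Real.rpow_natCast, ← Real.rpow_mul (by positivity), one_div, ← Real.rpow_neg (by positivity)]
      push_cast
      congr 1
      ring
    simp_rw [h1]
    exact (summable_nat_add_iff 1).2 (Real.summable_one_div_nat_rpow.2 (by linarith))
  · intro i
    exact hF2 i

end Pool.Agent.Helper29.PR
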