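import Mathlib

set_option autoImplicit false

/-! # Extension of positive functionals -/

namespace Pool.Agent.Helper29.PR

open Filter Topology
open scoped ComplexOrder

universe u v

section cs

variable {A : Type u} [NonUnitalCStarAlgebra A]

/-- Cauchy-Schwarz -/
lemma cs (φ : A →L[ℂ] ℂ) (hφ : ∀ a, 0 ≤ φ (star a * a)) (a b : A) :
    ‖φ (star a * b)‖ ^ 2 ≤ (φ (star a * a)).re * (φ (star b * b)).re := by
  letI : PartialOrder A := CStarAlgebra.spectralOrder A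
  haveI : StarOrderedRing A := CStarAlgebra.spectralOrderedRing A
  obtain ⟨f, hf⟩ : ∃ f : A →ₚ[ℂ] ℂ, ∀ a, f a = φ a := by
    refine ⟨PositiveLinearMap.mk₀ φ.toLinearMap fun x hx => ?_, fun a => rfl⟩
    obtain ⟨y, rfl⟩ := CStarAlgebra.nonneg_iff_eq_star_mul_self.1 hx
    exact hφ y
  have h1 := norm_inner_le_norm (𝕜 := ℂ) (f.toPreGNS a) (f.toPreGNS b)
  rw [PositiveLinearMap.preGNS_inner_def] at h1
  simp only [PositiveLinearMap.ofPreGNS_toPreGNS, hf] at h1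
  have h2 : ∀ a, ‖f.toPreGNS a‖ ^ 2 = (φ (star a * a)).re := by
    intro a
    have := PositiveLinearMap.preGNS_norm_sq f (f.toPreGNS a)
    simp only [PositiveLinearMap.ofPreGNS_toPreGNS, hf] at this
    rw [← this]
    norm_cast
  calc ‖φ (star a * b)‖ ^ 2 ≤ (‖f.toPreGNS a‖ * ‖f.toPreGNS b‖) ^ 2 := by gcongr
    _ = _ := by rw [mul_pow, h2, h2]

/-- `|φ(a)|² ≤ ‖φ‖ φ(a*a)` -/
lemma cs_one (φ : A →L[ℂ] ℂ) (hφ : ∀ a, 0 ≤ φ (star a * a)) (a : A) :
    ‖φ a‖ ^ 2 ≤ ‖φ‖ * (φ (star a * a)).re := by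
  letI : PartialOrder A := CStarAlgebra.spectralOrder A
  haveI : StarOrderedRing A := CStarAlgebra.spectralOrderedRing A
  have h := CStarAlgebra.increasingApproximateUnit A
  have h1 : Tendsto (fun e : A => ‖φ (e * a)‖ ^ 2) (CStarAlgebra.approximateUnit A) (𝓝 (‖φ a‖ ^ 2)) :=
    ((φ.continuous.tendsto a).comp (h.tendsto_mul_right a)).norm.pow 2
  refine le_of_tendsto h1 ?_
  filter_upwards [h.eventually_star_eq, h.eventually_norm] with e he1 he2
  have h2 := cs φ hφ e a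
  rw [he1] at h2
  have h3 : (φ (e * e)).re ≤ ‖φ‖ := by
    refine (Complex.re_le_norm _).trans ((φ.le_opNorm _).trans ?_)
    have h4 : ‖e * e‖ ≤ 1 := (norm_mul_le _ _).trans (by nlinarith [norm_nonneg e])
    calc ‖φ‖ * ‖e * e‖ ≤ ‖φ‖ * 1 := by gcongr
      _ = _ := mul_one _
  have h5 : 0 ≤ (φ (star a * a)).re := (Complex.nonneg_iff.1 (hφ a)).1
  exact h2.trans (mul_le_mul_of_nonneg_right h3 h5)

/-- the norm of a positive functional is attained at positive elements -/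
lemma almost (φ : A →L[ℂ] ℂ) (hφ : ∀ a, 0 ≤ φ (star a * a)) (ε : ℝ) (hε : 0 < ε) :
    ∃ a : A, ‖a‖ ≤ 1 ∧ ‖φ‖ - ε ≤ (φ (star a * a)).re := by
  rcases (norm_nonneg φ).eq_or_lt with h0 | h0
  · refine ⟨0, by simp, ?_⟩
    rw [← h0]
    simp
    exact hε.le
  by_contra hcon
  push Not at hcon
  have h1 : ∀ a : A, ‖φ a‖ ≤ Real.sqrt (‖φ‖ * (‖φ‖ - ε)) * ‖a‖ := by
    intro a
    rcases (norm_nonneg a).eq_or_lt with ha | ha
    · have : a = 0 := norm_eq_zero.1 ha.symm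
      rw [this]; simp
    · have h2 := cs_one φ hφ (((‖a‖⁻¹ : ℝ) : ℂ) • a)
      have hn1 : ‖((‖a‖⁻¹ : ℝ) : ℂ) • a‖ ≤ 1 := by
        rw [norm_smul, Complex.norm_real, norm_inv, norm_norm, inv_mul_cancel₀ ha.ne']
      have h3 := hcon _ hn1
      have h4 : ‖φ (((‖a‖⁻¹ : ℝ) : ℂ) • a)‖ ^ 2 ≤ ‖φ‖ * (‖φ‖ - ε) :=
        h2.trans (mul_le_mul_of_nonneg_left h3.le h0.le)
      have h5 : ‖φ (((‖a‖⁻¹ : ℝ) : ℂ) • a)‖ ≤ Real.sqrt (‖φ‖ * (‖φ‖ - ε)) := Real.le_sqrt_of_sq_le h4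
      rw [map_smul, norm_smul, Complex.norm_real, norm_inv, norm_norm, inv_mul_le_iff₀ ha] at h5
      linarith
  have h2 : ‖φ‖ ≤ Real.sqrt (‖φ‖ * (‖φ‖ - ε)) := φ.opNorm_le_bound (Real.sqrt_nonneg _) h1
  have h3 : Real.sqrt (‖φ‖ * (‖φ‖ - ε)) < ‖φ‖ := by
    rw [Real.sqrt_lt' h0, pow_two]
    exact mul_lt_mul_of_pos_left (by linarith) h0
  linarith

end cs

section unital

variable {B : Type v} [CStarAlgebra B]

lemma norm_one_le : ‖(1 : B)‖ ≤ 1 := by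
  rcases subsingleton_or_nontrivial B with h | h
  · rw [Subsingleton.elim (1 : B) 0, norm_zero]; norm_num
  · rw [CStarRing.norm_one]

/-- `‖2 a*a - 1‖ ≤ 1` -/
lemma norm_refl (a : B) (ha : ‖a‖ ≤ 1) : ‖(2 : ℂ) • (star a * a) - 1‖ ≤ 1 := by
  letI : PartialOrder B := CStarAlgebra.spectralOrder B
  haveI : StarOrderedRing B := CStarAlgebra.spectralOrderedRing B
  obtain ⟨c, hc⟩ : ∃ c, c = star a * a := ⟨_, rfl⟩
  obtain ⟨y, hy⟩ : ∃ y, y = (2 : ℂ) • c - 1 := ⟨_, rfl⟩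
  have hcs : star c = c := by rw [hc, star_mul, star_star]
  have hys : star y = y := by
    rw [hy, star_sub, star_smul, hcs, star_one]
    simp
  have h1 : a * star a ≤ 1 := by
    have h2 : a * star a ∈ Set.Icc (0 : B) 1 := by
      rw [CStarAlgebra.mem_Icc_iff_norm_le_one]
      refine ⟨mul_star_self_nonneg a, ?_⟩
      rw [CStarRing.norm_self_mul_star]
      nlinarith [norm_nonneg a]
    exact h2.2
  have h3 : 0 ≤ star a * (1 - a * star a) * a := star_left_conjugate_nonneg (sub_nonneg.2 h1) a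
  have h4 : y * y = 1 - (4 : ℂ) • (star a * (1 - a * star a) * a) := by
    have e1 : star a * (1 - a * star a) * a = c - c * c := by
      rw [hc]; noncomm_ring
    rw [e1, hy]
    simp only [mul_sub, sub_mul, smul_mul_assoc, mul_smul_comm, mul_one, one_mul, smul_sub, smul_smul]
    module
  have h5 : y * y ∈ Set.Icc (0 : B) 1 := by
    refine ⟨?_, ?_⟩
    · have := star_mul_self_nonneg y
      rwa [hys] at this
    · rw [h4]
      refine sub_le_self _ ?_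
      exact smul_nonneg (by norm_num) h3
  have h6 := (CStarAlgebra.mem_Icc_iff_norm_le_one.1 h5).2
  have h7 : ‖y‖ * ‖y‖ ≤ 1 := by
    have := CStarRing.norm_star_mul_self (x := y)
    rw [hys] at this
    rw [← this]; exact h6
  rw [← hc, ← hy]
  nlinarith [norm_nonneg y]

/-- a functional which attains its norm at `1` is positive -/
lemma pos_of_one (ρ : B →L[ℂ] ℂ) (M : ℝ) (hM : ‖ρ‖ ≤ M) (h1 : ρ 1 = (M : ℂ)) (b : B) : 0 ≤ ρ (star b * b) := by
  letI : PartialOrder B := CStarAlgebra.spectralOrder B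
  haveI : StarOrderedRing B := CStarAlgebra.spectralOrderedRing B
  obtain ⟨c, hc⟩ : ∃ c, c = star b * b := ⟨_, rfl⟩
  have hcs : star c = c := by rw [hc, star_mul, star_star]
  have hc0 : 0 ≤ c := hc ▸ star_mul_self_nonneg b
  have hM0 : 0 ≤ M := (norm_nonneg ρ).trans hM
  rw [← hc, Complex.nonneg_iff]
  constructor
  · -- the real part
    have h2 : ‖((‖c‖ : ℝ) : ℂ) • (1 : B) - c‖ ≤ ‖c‖ := by
      have h3 : algebraMap ℝ B ‖c‖ - c ∈ Set.Icc (0 : B) (algebraMap ℝ B ‖c‖) := by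
        refine ⟨sub_nonneg.2 ?_, sub_le_self _ hc0⟩
        exact IsSelfAdjoint.le_algebraMap_norm_self (IsSelfAdjoint.of_nonneg hc0)
      have h4 := ((CStarAlgebra.mem_Icc_algebraMap_iff_norm_le (norm_nonneg c)).1 h3).2
      have h5 : algebraMap ℝ B ‖c‖ = ((‖c‖ : ℝ) : ℂ) • (1 : B) := by
        rw [Algebra.algebraMap_eq_smul_one, Complex.coe_smul]
      rwa [h5] at h4
    have h3 : ‖ρ (((‖c‖ : ℝ) : ℂ) • (1 : B) - c)‖ ≤ M * ‖c‖ :=
      (ρ.le_opNorm _).trans (mul_le_mul hM h2 (norm_nonneg _) hM0)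
    rw [map_sub, map_smul, h1, smul_eq_mul] at h3
    have h4 := (Complex.re_le_norm _).trans h3
    rw [Complex.sub_re, ← Complex.ofReal_mul, Complex.ofReal_re] at h4
    nlinarith
  · -- the imaginary part
    have h2 : ∀ t : ℝ, ‖c + ((t : ℂ) * Complex.I) • (1 : B)‖ ^ 2 ≤ ‖c‖ ^ 2 + t ^ 2 := by
      intro t
      have e1 : star (c + ((t : ℂ) * Complex.I) • (1 : B)) * (c + ((t : ℂ) * Complex.I) • (1 : B)) =
          c * c + ((t ^ 2 : ℝ) : ℂ) • (1 : B) := by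
        rw [star_add, hcs, star_smul, star_one]
        simp only [add_mul, mul_add, smul_mul_assoc, mul_smul_comm, mul_one, one_mul, smul_smul]
        have e2 : star ((t : ℂ) * Complex.I) = -((t : ℂ) * Complex.I) := by
          simp
        rw [e2]
        have e3 : -((t : ℂ) * Complex.I) * ((t : ℂ) * Complex.I) = ((t ^ 2 : ℝ) : ℂ) := by
          push_cast
          linear_combination (-(t : ℂ) ^ 2) * Complex.I_sq
        rw [← e3]
        module
      rw [pow_two, ← CStarRing.norm_star_mul_self, e1]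
      refine (norm_add_le _ _).trans ?_
      gcongr
      · rw [pow_two]; exact norm_mul_le _ _
      · rw [norm_smul, Complex.norm_real, Real.norm_eq_abs, abs_of_nonneg (sq_nonneg t)]
        calc t ^ 2 * ‖(1 : B)‖ ≤ t ^ 2 * 1 := by gcongr; exact norm_one_le
          _ = _ := mul_one _
    have h3 : ∀ t : ℝ, ((ρ c).im + t * M) ^ 2 ≤ M ^ 2 * (‖c‖ ^ 2 + t ^ 2) := by
      intro t
      have h4 : ‖ρ (c + ((t : ℂ) * Complex.I) • (1 : B))‖ ^ 2 ≤ M ^ 2 * (‖c‖ ^ 2 + t ^ 2) := by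
        calc ‖ρ (c + ((t : ℂ) * Complex.I) • (1 : B))‖ ^ 2 ≤ (M * ‖c + ((t : ℂ) * Complex.I) • (1 : B)‖) ^ 2 := by
              gcongr
              exact (ρ.le_opNorm _).trans (mul_le_mul_of_nonneg_right hM (norm_nonneg _))
          _ = M ^ 2 * ‖c + ((t : ℂ) * Complex.I) • (1 : B)‖ ^ 2 := mul_pow _ _ _
          _ ≤ _ := by gcongr; exact h2 t
      refine le_trans ?_ h4
      rw [map_add, map_smul, h1, smul_eq_mul]
      have e : (ρ c + (t : ℂ) * Complex.I * (M : ℂ)).im = (ρ c).im + t * M := by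
        simp
      rw [← e, ← Complex.normSq_eq_norm_sq, Complex.normSq_apply]
      nlinarith [sq_nonneg (ρ c + (t : ℂ) * Complex.I * (M : ℂ)).re]
    by_contra hne
    have hy : (ρ c).im ≠ 0 := fun h => hne h.symm
    rcases hM0.eq_or_lt with h0 | h0
    · have h4 : ‖ρ c‖ ≤ 0 := by
        refine (ρ.le_opNorm c).trans ?_
        rw [← h0] at hM
        nlinarith [norm_nonneg c, norm_nonneg ρ]
      have h5 : ρ c = 0 := norm_le_zero_iff.1 h4
      exact hy (by rw [h5]; rfl)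
    · have h4 := h3 ((M ^ 2 * ‖c‖ ^ 2 + 1) / (2 * M * (ρ c).im))
      have h5 : 2 * M * (ρ c).im ≠ 0 := by positivity
      have h6 : (M ^ 2 * ‖c‖ ^ 2 + 1) / (2 * M * (ρ c).im) * (2 * M * (ρ c).im) = M ^ 2 * ‖c‖ ^ 2 + 1 :=
        div_mul_cancel₀ _ h5
      generalize (M ^ 2 * ‖c‖ ^ 2 + 1) / (2 * M * (ρ c).im) = t at h4 h6
      nlinarith [sq_nonneg (ρ c).im]

end unital

/-- **extension of positive functionals** -/
theorem exists_ext {A : Type u} [NonUnitalCStarAlgebra A] {B : Type v} [CStarAlgebra B] (π : A →⋆ₙₐ[ℂ] B)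
    (hπ : Function.Injective π) (φ : A →L[ℂ] ℂ) (hφ : ∀ a, 0 ≤ φ (star a * a)) :
    ∃ ρ : B →L[ℂ] ℂ, (∀ a, ρ (π a) = φ a) ∧ ∀ b, 0 ≤ ρ (star b * b) := by
  obtain ⟨L, hL⟩ : ∃ L : A →ₗ[ℂ] B, ∀ a, L a = π a := ⟨{ toFun := π, map_add' := map_add π, map_smul' := map_smul π }, fun a => rfl⟩
  have hLi : Function.Injective L := fun a b h => hπ (by rw [← hL, ← hL, h])
  obtain ⟨e, he⟩ : ∃ e : A ≃ₗ[ℂ] LinearMap.range L, ∀ a, ((e a : LinearMap.range L) : B) = π a :=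
    ⟨LinearEquiv.ofInjective L hLi, fun a => (hL a)⟩
  have hn : ∀ y : LinearMap.range L, ‖φ (e.symm y)‖ ≤ ‖φ‖ * ‖y‖ := by
    intro y
    refine (φ.le_opNorm _).trans (le_of_eq ?_)
    congr 1
    rw [← NonUnitalStarAlgHom.norm_map π hπ, ← he, e.apply_symm_apply]
    rfl
  obtain ⟨f, hf, hfn⟩ : ∃ f : LinearMap.range L →L[ℂ] ℂ, (∀ y, f y = φ (e.symm y)) ∧ ‖f‖ ≤ ‖φ‖ := by
    refine ⟨LinearMap.mkContinuous (φ.toLinearMap.comp e.symm.toLinearMap) ‖φ‖ hn, fun y => rfl, ?_⟩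
    exact LinearMap.mkContinuous_norm_le _ (norm_nonneg _) _
  obtain ⟨ρ, hρ1, hρ2⟩ := exists_extension_norm_eq _ f
  have hext : ∀ a, ρ (π a) = φ a := by
    intro a
    have h1 := hρ1 (e a)
    rw [he, hf, e.symm_apply_apply] at h1
    exact h1
  have hρn : ‖ρ‖ ≤ ‖φ‖ := hρ2.le.trans hfn
  have hone : ρ 1 = ((‖φ‖ : ℝ) : ℂ) := by
    have h1 : ‖ρ 1‖ ≤ ‖φ‖ := by
      refine (ρ.le_opNorm 1).trans ?_
      calc ‖ρ‖ * ‖(1 : B)‖ ≤ ‖ρ‖ * 1 := by gcongr; exact norm_one_le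
        _ ≤ _ := by rw [mul_one]; exact hρn
    have h2 : ‖φ‖ ≤ (ρ 1).re := by
      refine le_of_forall_pos_le_add fun ε hε => ?_
      obtain ⟨a, ha1, ha2⟩ := almost φ hφ (ε / 2) (by linarith)
      have h3 : ‖ρ ((2 : ℂ) • (star (π a) * π a) - 1)‖ ≤ ‖φ‖ := by
        refine (ρ.le_opNorm _).trans ?_
        have h4 := norm_refl (π a) ((NonUnitalStarAlgHom.norm_map π hπ a).le.trans ha1)
        calc ‖ρ‖ * ‖(2 : ℂ) • (star (π a) * π a) - 1‖ ≤ ‖ρ‖ * 1 := by gcongr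
          _ ≤ _ := by rw [mul_one]; exact hρn
      rw [map_sub, map_smul, ← map_star, ← map_mul, hext, smul_eq_mul] at h3
      have h5 := (Complex.re_le_norm _).trans h3
      rw [Complex.sub_re] at h5
      have h6 : ((2 : ℂ) * φ (star a * a)).re = 2 * (φ (star a * a)).re := by simp
      rw [h6] at h5
      linarith
    have h3 : (ρ 1).re ≤ ‖ρ 1‖ := Complex.re_le_norm _
    have h4 : (ρ 1).re = ‖φ‖ := le_antisymm (h3.trans h1) h2
    have h5 : ‖ρ 1‖ = (ρ 1).re := le_antisymm (h1.trans h4.ge) h3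
    have h6 : (ρ 1).im = 0 := by
      have h7 : ‖ρ 1‖ ^ 2 = (ρ 1).re ^ 2 + (ρ 1).im ^ 2 := by
        rw [← Complex.normSq_eq_norm_sq, Complex.normSq_apply]; ring
      rw [h5] at h7
      have : (ρ 1).im ^ 2 = 0 := by linarith
      exact pow_eq_zero_iff (two_ne_zero) |>.1 this
    apply Complex.ext
    · rw [h4]; simp
    · rw [h6]; simp
  exact ⟨ρ, hext, fun b => pos_of_one ρ ‖φ‖ hρn hone b⟩

end Pool.Agent.Helper29.PR
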