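import Pool.Agent.Helper29.PR.Arcs
import Pool.Agent.Helper29.PR.BC
import Pool.Agent.Helper29.PR.Ext

set_option autoImplicit false

/-! # The criterion -/

namespace Pool.Agent.Helper29.PR

open Finset MeasureTheory Filter Topology
open Pool.Agent.Results.MP_7a8f48_an.InvariantSpectraHalf (BelowHalf Positive Invariant IsSpectralMeasure SmallAt)
open scoped ComplexOrder ComplexConjugate

universe u v

section core

variable {V : Type*} [SeminormedAddCommGroup V] [InnerProductSpace ℂ V]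

/-- mean square distance at most `δ` from a subspace of dimension at most `r` -/
def Near (v : ℕ → V) (n : ℕ) (δ r : ℝ) : Prop :=
  ∃ W : Submodule ℂ V, FiniteDimensional ℂ W ∧ (Module.finrank ℂ W : ℝ) ≤ r ∧
    ∃ w : ℕ → V, (∀ h < n, w h ∈ W) ∧ ∑ h ∈ range n, ‖v h - w h‖ ^ 2 ≤ δ ^ 2 * n

lemma smallAt_of {A : Type u} [NonUnitalCStarAlgebra A] (α : A ≃⋆ₐ[ℂ] A) (φ : A →L[ℂ] ℂ) (hφ : Invariant α φ)
    (x : A) (v : ℕ → V) (hv : ∀ i j, inner ℂ (v i) (v j) = φ (star ((α ^ i) x) * (α ^ j) x)) (B D s : ℝ)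
    (hD : D < 2) (hs : s < 1 / 2)
    (H : ∀ n : ℕ, 1 ≤ n → ∀ δ : ℝ, 0 < δ → δ ≤ 1 → Near v n δ (Real.exp (Real.exp (B * δ ^ (-D))) * (n : ℝ) ^ s)) :
    SmallAt α φ x := by
  have hinv : ∀ (i : ℕ) (a : A), φ ((α ^ i) a) = φ a := by
    intro i
    induction i with
    | zero => intro a; simp
    | succ i ih =>
        intro a
        have : (α ^ (i + 1)) a = (α ^ i) (α a) := by
          rw [pow_succ]; rfl
        rw [this, ih, hφ]
  have ha : ∀ i k, inner ℂ (v i) (v (i + k)) = φ (star x * (α ^ k) x) := by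
    intro i k
    have h1 : (α ^ (i + k)) x = (α ^ i) ((α ^ k) x) := by rw [pow_add]; rfl
    rw [hv, h1, ← map_star, ← map_mul, hinv]
  obtain ⟨σ, hσ0, hσ⟩ := exists_spec v _ ha
  have hσ2 : ∀ i j : ℕ, inner ℂ (v i) (v j) = ∫ η, (fourier ((j : ℤ) - i) η : ℂ) ∂σ := by
    intro i j
    rcases le_total i j with h | h
    · obtain ⟨k, rfl⟩ := Nat.exists_eq_add_of_le h
      rw [ha, ← hσ]
      congr 3
      funext η
      congr 2
      push_cast
      ring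
    · obtain ⟨k, rfl⟩ := Nat.exists_eq_add_of_le h
      rw [← inner_conj_symm, ha, ← hσ, ← integral_conj]
      refine integral_congr_ae (ae_of_all _ fun η => ?_)
      simp only
      rw [← fourier_neg]
      congr 2
      push_cast
      ring
  refine ⟨σ, ⟨hσ0, fun k => (hσ k).symm⟩, small_of σ B D s hD hs fun n hn δ hδ0 hδ1 => ?_⟩
  obtain ⟨W, hW1, hW2, w, hw1, hw2⟩ := H n hn δ hδ0 hδ1
  obtain ⟨F, hF1, hF2⟩ := arcs v σ hσ2 hn W w hw1 δ hw2
  refine ⟨F, ?_, hF2⟩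
  calc (F.card : ℝ) ≤ ((24 * Module.finrank ℂ W : ℕ) : ℝ) := by exact_mod_cast hF1
    _ = 24 * (Module.finrank ℂ W : ℝ) := by push_cast; ring
    _ ≤ _ := by gcongr

end core

section func

variable {A : Type u} [NonUnitalCStarAlgebra A]

/-- the semi-inner product of a positive functional -/
lemma exists_pre (φ : A →L[ℂ] ℂ) (hφ : ∀ a, 0 ≤ φ (star a * a)) :
    ∃ (V : Type u) (_ : SeminormedAddCommGroup V) (_ : InnerProductSpace ℂ V) (Λ : A →ₗ[ℂ] V),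
      ∀ a b, inner ℂ (Λ a) (Λ b) = φ (star a * b) := by
  let _ : PartialOrder A := CStarAlgebra.spectralOrder A
  have _ : StarOrderedRing A := CStarAlgebra.spectralOrderedRing A
  obtain ⟨f, hf⟩ : ∃ f : A →ₚ[ℂ] ℂ, ∀ a, f a = φ a := by
    refine ⟨PositiveLinearMap.mk₀ φ.toLinearMap fun x hx => ?_, fun a => rfl⟩
    obtain ⟨y, rfl⟩ := CStarAlgebra.nonneg_iff_eq_star_mul_self.1 hx
    exact hφ y
  refine ⟨f.PreGNS, inferInstance, inferInstance, f.toPreGNS.toLinearMap, fun a b => ?_⟩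
  have h1 := PositiveLinearMap.preGNS_inner_def f (f.toPreGNS a) (f.toPreGNS b)
  simp only [PositiveLinearMap.ofPreGNS_toPreGNS, hf] at h1
  exact h1

lemma pos_of {φ : A →L[ℂ] ℂ} (hφ : Positive φ) : ∀ a, 0 ≤ φ (star a * a) := fun a =>
  Complex.nonneg_iff.2 ⟨(hφ a).1, (hφ a).2.symm⟩

/-- extension of positive functionals, for algebras without unit -/
lemma exists_ext' {B : Type v} [NonUnitalCStarAlgebra B] (π : A →⋆ₙₐ[ℂ] B)
    (hπ : Function.Injective π) (φ : A →L[ℂ] ℂ) (hφ : ∀ a, 0 ≤ φ (star a * a)) :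
    ∃ ρ : B →L[ℂ] ℂ, (∀ a, ρ (π a) = φ a) ∧ ∀ b, 0 ≤ ρ (star b * b) := by
  obtain ⟨ρ, h1, h2⟩ := exists_ext ((Unitization.inrNonUnitalStarAlgHom ℂ B).comp π)
    (Unitization.inr_injective.comp hπ) φ hφ
  obtain ⟨L, hL⟩ : ∃ L : B →L[ℂ] ℂ, ∀ b, L b = ρ (Unitization.inr b) := by
    obtain ⟨L0, hL0⟩ : ∃ L0 : B →ₗ[ℂ] ℂ, ∀ b, L0 b = ρ (Unitization.inr b) := by
      refine ⟨ρ.toLinearMap.comp (Unitization.inrNonUnitalStarAlgHom ℂ B : B →ₗ[ℂ] Unitization ℂ B), fun b => rfl⟩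
    refine ⟨LinearMap.mkContinuous L0 ‖ρ‖ fun b => ?_, fun b => hL0 b⟩
    rw [hL0]
    refine (ρ.le_opNorm _).trans (le_of_eq ?_)
    rw [Unitization.norm_inr]
  refine ⟨L, fun a => ?_, fun b => ?_⟩
  · rw [hL]; exact h1 a
  · rw [hL, Unitization.inr_mul, Unitization.inr_star]
    exact h2 _

end func

/-- the sequence `y` of elements of a C*-algebra is within `δ`, in mean square, of a subspace of dimension
at most `r` -/
def NearC {B : Type v} [NonUnitalCStarAlgebra B] (y : ℕ → B) (n : ℕ) (δ r : ℝ) : Prop :=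
  ∃ W : Submodule ℂ B, FiniteDimensional ℂ W ∧ (Module.finrank ℂ W : ℝ) ≤ r ∧
    ∃ w : ℕ → B, (∀ h < n, w h ∈ W) ∧ ‖∑ h ∈ range n, star (y h - w h) * (y h - w h)‖ ≤ δ ^ 2 * n

/-- approximations in a larger algebra -/
theorem smallAt_big {A : Type u} [NonUnitalCStarAlgebra A] (α : A ≃⋆ₐ[ℂ] A) (φ : A →L[ℂ] ℂ) (hp : Positive φ)
    (hφ : Invariant α φ) (x : A) {B : Type v} [NonUnitalCStarAlgebra B] (π : A →⋆ₙₐ[ℂ] B)
    (hπ : Function.Injective π) (E D s : ℝ) (hD : D < 2) (hs : s < 1 / 2)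
    (H : ∀ n : ℕ, 1 ≤ n → ∀ δ : ℝ, 0 < δ → δ ≤ 1 →
      NearC (fun h => π ((α ^ h) x)) n δ (Real.exp (Real.exp (E * δ ^ (-D))) * (n : ℝ) ^ s)) :
    SmallAt α φ x := by
  obtain ⟨ρ, hρ1, hρ2⟩ := exists_ext' π hπ φ (pos_of hp)
  obtain ⟨V, i1, i2, Λ, hΛ⟩ := exists_pre ρ hρ2
  obtain ⟨M, hM⟩ : ∃ M, M = max ‖ρ‖ 1 := ⟨_, rfl⟩
  have hM1 : 1 ≤ M := hM ▸ le_max_right _ _
  have hM2 : ‖ρ‖ ≤ M := hM ▸ le_max_left _ _
  have hM0 : 0 < M := by linarith
  refine smallAt_of α φ hφ x (fun h => Λ (π ((α ^ h) x))) (fun i j => ?_) (E * Real.sqrt M ^ D) D s hD hs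
    fun n hn δ hδ0 hδ1 => ?_
  · rw [hΛ, ← map_star, ← map_mul, hρ1]
  · have hsq : 1 ≤ Real.sqrt M := Real.one_le_sqrt.2 hM1
    obtain ⟨W, hW1, hW2, w, hw1, hw2⟩ := H n hn (δ / Real.sqrt M) (by positivity)
      (div_le_one_of_le₀ (hδ1.trans hsq) (by positivity))
    refine ⟨W.map Λ, inferInstance, ?_, fun h => Λ (w h), fun h hh => Submodule.mem_map_of_mem (hw1 h hh), ?_⟩
    · have h1 : (Module.finrank ℂ (W.map Λ) : ℝ) ≤ Module.finrank ℂ W := by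
        exact_mod_cast Submodule.finrank_map_le Λ W
      refine h1.trans (hW2.trans (le_of_eq ?_))
      congr 3
      rw [div_eq_mul_inv, Real.mul_rpow hδ0.le (by positivity), Real.inv_rpow (by positivity),
        Real.rpow_neg (Real.sqrt_nonneg M), inv_inv]
      ring
    · have h1 : ∀ b : B, ‖Λ b‖ ^ 2 = (ρ (star b * b)).re := by
        intro b
        have e1 : ((‖Λ b‖ ^ 2 : ℝ) : ℂ) = ρ (star b * b) := by
          rw [← hΛ, inner_self_eq_norm_sq_to_K]; push_cast; rfl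
        rw [← e1, Complex.ofReal_re]
      simp_rw [← map_sub, h1]
      rw [← Complex.re_sum, ← map_sum]
      calc (ρ (∑ h ∈ range n, star (π ((α ^ h) x) - w h) * (π ((α ^ h) x) - w h))).re
          ≤ ‖ρ‖ * ‖∑ h ∈ range n, star (π ((α ^ h) x) - w h) * (π ((α ^ h) x) - w h)‖ :=
            (Complex.re_le_norm _).trans (ρ.le_opNorm _)
        _ ≤ M * ((δ / Real.sqrt M) ^ 2 * n) := by gcongr
        _ = δ ^ 2 * n := by
            rw [div_pow, Real.sq_sqrt hM0.le]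
            field_simp

/-- approximations for the functional -/
theorem smallAt_self {A : Type u} [NonUnitalCStarAlgebra A] (α : A ≃⋆ₐ[ℂ] A) (φ : A →L[ℂ] ℂ) (hp : Positive φ)
    (hφ : Invariant α φ) (x : A) (E D s : ℝ) (hD : D < 2) (hs : s < 1 / 2)
    (H : ∀ n : ℕ, 1 ≤ n → ∀ δ : ℝ, 0 < δ → δ ≤ 1 → ∃ W : Submodule ℂ A, FiniteDimensional ℂ W ∧
      (Module.finrank ℂ W : ℝ) ≤ Real.exp (Real.exp (E * δ ^ (-D))) * (n : ℝ) ^ s ∧
      ∃ w : ℕ → A, (∀ h < n, w h ∈ W) ∧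
        ∑ h ∈ range n, (φ (star ((α ^ h) x - w h) * ((α ^ h) x - w h))).re ≤ δ ^ 2 * n) :
    SmallAt α φ x := by
  obtain ⟨V, i1, i2, Λ, hΛ⟩ := exists_pre φ (pos_of hp)
  refine smallAt_of α φ hφ x (fun h => Λ ((α ^ h) x)) (fun i j => hΛ _ _) E D s hD hs
    fun n hn δ hδ0 hδ1 => ?_
  obtain ⟨W, hW1, hW2, w, hw1, hw2⟩ := H n hn δ hδ0 hδ1
  refine ⟨W.map Λ, inferInstance, ?_, fun h => Λ (w h), fun h hh => Submodule.mem_map_of_mem (hw1 h hh), ?_⟩
  · have h1 : (Module.finrank ℂ (W.map Λ) : ℝ) ≤ Module.finrank ℂ W := by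
      exact_mod_cast Submodule.finrank_map_le Λ W
    exact h1.trans hW2
  · have h1 : ∀ b : A, ‖Λ b‖ ^ 2 = (φ (star b * b)).re := by
      intro b
      have e1 : ((‖Λ b‖ ^ 2 : ℝ) : ℂ) = φ (star b * b) := by
        rw [← hΛ, inner_self_eq_norm_sq_to_K]; push_cast; rfl
      rw [← e1, Complex.ofReal_re]
    simp_rw [← map_sub, h1]
    exact hw2

end Pool.Agent.Helper29.PR
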