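import Pool.Graph.R_seed8.R296.SM.Main

set_option autoImplicit false

/-! # The spectral measure of a stationary sequence of vectors -/

namespace Pool.Agent.Helper29.PR

open Finset MeasureTheory Filter Topology
open Pool.Agent.R296.SM (int_fourier int_of_cont fourier_mul_conj)
open scoped ENNReal NNReal ComplexConjugate

section

variable {V : Type*} [SeminormedAddCommGroup V] [InnerProductSpace ℂ V]

/-- the density -/
noncomputable def dens (v : ℕ → V) (N : ℕ) (η : UnitAddCircle) : ℝ :=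
  (1 / (N : ℝ)) * ‖∑ j ∈ range N, (fourier (-(j : ℤ)) η : ℂ) • v j‖ ^ 2

lemma dens_nonneg (v : ℕ → V) (N : ℕ) (η : UnitAddCircle) : 0 ≤ dens v N η := by
  unfold dens; positivity

lemma dens_eq (v : ℕ → V) (N : ℕ) (η : UnitAddCircle) :
    ((dens v N η : ℝ) : ℂ) = (1 / (N : ℂ)) * ∑ i ∈ range N, ∑ j ∈ range N,
      (fourier ((i : ℤ) - j) η : ℂ) * inner ℂ (v i) (v j) := by
  have h1 : ((‖∑ j ∈ range N, (fourier (-(j : ℤ)) η : ℂ) • v j‖ ^ 2 : ℝ) : ℂ) =
      inner ℂ (∑ j ∈ range N, (fourier (-(j : ℤ)) η : ℂ) • v j)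
        (∑ j ∈ range N, (fourier (-(j : ℤ)) η : ℂ) • v j) := by
    rw [inner_self_eq_norm_sq_to_K]
    push_cast
    rfl
  unfold dens
  rw [Complex.ofReal_mul, h1, sum_inner]
  push_cast
  congr 1
  refine sum_congr rfl fun i _ => ?_
  rw [inner_sum]
  refine sum_congr rfl fun j _ => ?_
  rw [inner_smul_left, inner_smul_right, ← mul_assoc, fourier_mul_conj]
  congr 3
  ring

lemma dens_cont (v : ℕ → V) (N : ℕ) : Continuous (dens v N) := by
  unfold dens
  have h1 : Continuous fun η : UnitAddCircle => ((dens v N η : ℝ) : ℂ) := by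
    have : (fun η : UnitAddCircle => ((dens v N η : ℝ) : ℂ)) = fun η =>
        (1 / (N : ℂ)) * ∑ i ∈ range N, ∑ j ∈ range N, (fourier ((i : ℤ) - j) η : ℂ) * inner ℂ (v i) (v j) := by
      funext η
      exact dens_eq v N η
    rw [this]
    refine continuous_const.mul (continuous_finsetSum _ fun i _ => continuous_finsetSum _ fun j _ =>
      (map_continuous _).mul continuous_const)
  have h2 := Complex.continuous_re.comp h1
  exact h2

/-- the Fourier coefficients of the density -/
lemma dens_coeff (v : ℕ → V) (a : ℕ → ℂ) (ha : ∀ i k, inner ℂ (v i) (v (i + k)) = a k) (N k : ℕ) (hk : k ≤ N)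
    (hN : 1 ≤ N) :
    ∫ η : UnitAddCircle, (fourier (k : ℤ) η : ℂ) * ((dens v N η : ℝ) : ℂ) = (((N : ℝ) - k) / N : ℝ) * a k := by
  have h1 : ∀ η : UnitAddCircle, (fourier (k : ℤ) η : ℂ) * ((dens v N η : ℝ) : ℂ) =
      (1 / (N : ℂ)) * ∑ i ∈ range N, ∑ j ∈ range N, (fourier ((k : ℤ) + i - j) η : ℂ) * inner ℂ (v i) (v j) := by
    intro η
    rw [dens_eq, mul_left_comm, mul_sum]
    congr 1
    refine sum_congr rfl fun i _ => ?_
    rw [mul_sum]
    refine sum_congr rfl fun j _ => ?_
    rw [← mul_assoc, ← fourier_add]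
    congr 3
    ring
  simp_rw [h1]
  rw [integral_const_mul, integral_finsetSum _ fun i _ => ?_]
  swap
  · exact int_of_cont (continuous_finsetSum _ fun j _ => (map_continuous _).mul continuous_const) _
  have h2 : ∀ i ∈ range N, ∫ η : UnitAddCircle, ∑ j ∈ range N, (fourier ((k : ℤ) + i - j) η : ℂ) * inner ℂ (v i) (v j) =
      if i + k < N then a k else 0 := by
    intro i _
    rw [integral_finsetSum _ fun j _ => ?_]
    swap
    · exact int_of_cont ((map_continuous _).mul continuous_const) _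
    have h3 : ∀ j ∈ range N, ∫ η : UnitAddCircle, (fourier ((k : ℤ) + i - j) η : ℂ) * inner ℂ (v i) (v j) =
        if j = i + k then a k else 0 := by
      intro j _
      rw [integral_mul_const, int_fourier]
      by_cases h : j = i + k
      · rw [if_pos (by rw [h]; push_cast; ring), if_pos h, one_mul, h, ha]
      · rw [if_neg (by intro h0; apply h; omega), if_neg h, zero_mul]
    rw [sum_congr rfl h3, sum_ite_eq']
    simp only [mem_range]
  rw [sum_congr rfl h2, ← sum_filter, sum_const]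
  have h4 : ((range N).filter (fun i => i + k < N)).card = N - k := by
    have : (range N).filter (fun i => i + k < N) = range (N - k) := by
      ext i; simp only [mem_filter, mem_range]; omega
    rw [this, card_range]
  rw [h4, nsmul_eq_mul, Nat.cast_sub hk]
  push_cast
  ring

/-- **Herglotz' theorem** -/
theorem exists_spec (v : ℕ → V) (a : ℕ → ℂ) (ha : ∀ i k, inner ℂ (v i) (v (i + k)) = a k) :
    ∃ σ : Measure UnitAddCircle, IsFiniteMeasure σ ∧ ∀ k : ℕ, ∫ η, (fourier (k : ℤ) η : ℂ) ∂σ = a k := by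
  classical
  -- the measures
  have hint : ∀ N, Integrable (dens v N) (volume : Measure UnitAddCircle) := fun N => int_of_cont (dens_cont v N) _
  have ha0 : (0 : ℝ) ≤ (a 0).re ∧ (a 0).im = 0 := by
    have h1 := ha 0 0
    rw [zero_add, inner_self_eq_norm_sq_to_K] at h1
    have h2 : a 0 = ((‖v 0‖ ^ 2 : ℝ) : ℂ) := by
      rw [← h1]; push_cast; rfl
    rw [h2, Complex.ofReal_re, Complex.ofReal_im]
    exact ⟨by positivity, rfl⟩
  obtain ⟨ν, hν⟩ : ∃ ν : ℕ → Measure UnitAddCircle, ν = fun N =>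
    (volume : Measure UnitAddCircle).withDensity fun η => ENNReal.ofReal (dens v (N + 1) η) := ⟨_, rfl⟩
  have hfin : ∀ N, IsFiniteMeasure (ν N) := by
    intro N
    rw [hν]
    exact isFiniteMeasure_withDensity_ofReal (hint (N + 1)).2
  have hνint : ∀ (N : ℕ) (f : UnitAddCircle → ℂ), Continuous f → ∫ η, f η ∂(ν N) = ∫ η : UnitAddCircle, f η * ((dens v (N + 1) η : ℝ) : ℂ) := by
    intro N f hf
    rw [hν]
    simp only
    rw [integral_withDensity_eq_integral_toReal_smul]
    · refine integral_congr_ae (ae_of_all _ fun η => ?_)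
      simp only
      rw [ENNReal.toReal_ofReal (dens_nonneg _ _ _), Complex.real_smul, mul_comm]
    · exact (dens_cont v (N + 1)).measurable.ennreal_ofReal
    · exact ae_of_all _ fun η => ENNReal.ofReal_lt_top
  have hcoef : ∀ (k N : ℕ), k ≤ N + 1 → ∫ η, (fourier (k : ℤ) η : ℂ) ∂(ν N) = ((((N + 1 : ℕ) : ℝ) - k) / ((N + 1 : ℕ) : ℝ) : ℝ) * a k := by
    intro k N hk
    rw [hνint N _ (map_continuous _), dens_coeff v a ha (N + 1) k hk (by omega)]
  have hmass : ∀ N, (ν N).real Set.univ = (a 0).re := by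
    intro N
    have h1 := hcoef 0 N (by omega)
    simp only [Nat.cast_zero, fourier_zero, sub_zero] at h1
    rw [div_self (by positivity)] at h1
    simp only [integral_const, smul_eq_mul] at h1
    have h2 := congrArg Complex.re h1
    simp at h2
    exact h2
  obtain ⟨μ, hμ⟩ : ∃ μ : ℕ → FiniteMeasure UnitAddCircle, ∀ N, (μ N : Measure UnitAddCircle) = ν N :=
    ⟨fun N => ⟨ν N, hfin N⟩, fun N => rfl⟩
  obtain ⟨C, hC⟩ : ∃ C : ℝ≥0, C = (a 0).re.toNNReal := ⟨_, rfl⟩
  have hmem : ∀ N, μ N ∈ {m : FiniteMeasure UnitAddCircle | m.mass ≤ C} := by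
    intro N
    show (μ N).mass ≤ C
    rw [← NNReal.coe_le_coe]
    have h1 : ((μ N).mass : ℝ) = (ν N).real Set.univ := by
      rw [← hμ N]
      rfl
    rw [h1, hmass, hC, Real.coe_toNNReal _ ha0.1]
  have hcomp := isCompact_setOfPred_finiteMeasure_le_of_compactSpace UnitAddCircle C
  obtain ⟨m, hm, hclus⟩ := hcomp.exists_clusterPt (f := Filter.map μ atTop) (by
    rw [Filter.le_principal_iff, Filter.mem_map]
    exact Filter.univ_mem' hmem)
  obtain ⟨𝒰, h𝒰1, h𝒰2⟩ := mapClusterPt_iff_ultrafilter.1 (show MapClusterPt m atTop μ from hclus)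
  refine ⟨(m : Measure UnitAddCircle), inferInstance, fun k => ?_⟩
  have h1 := (FiniteMeasure.tendsto_iff_forall_integral_rclike_tendsto ℂ).1 h𝒰2
    (BoundedContinuousFunction.mkOfCompact (fourier (k : ℤ) : C(UnitAddCircle, ℂ)))
  simp only [BoundedContinuousFunction.mkOfCompact_apply] at h1
  have h2 : Tendsto (fun N : ℕ => ∫ η, (fourier (k : ℤ) η : ℂ) ∂(μ N : Measure UnitAddCircle)) atTop (𝓝 (a k)) := by
    have h3 : Tendsto (fun N : ℕ => ((((((N + 1 : ℕ) : ℝ) - k) / ((N + 1 : ℕ) : ℝ) : ℝ) : ℂ) * a k)) atTop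
        (𝓝 (((1 : ℝ) : ℂ) * a k)) := by
      refine Tendsto.mul_const _ ?_
      refine (Complex.continuous_ofReal.tendsto _).comp ?_
      have h4 : Tendsto (fun N : ℕ => (1 : ℝ) - k * (1 / ((N : ℝ) + 1))) atTop (𝓝 (1 - k * 0)) :=
        tendsto_const_nhds.sub (tendsto_one_div_add_atTop_nhds_zero_nat.const_mul _)
      rw [mul_zero, sub_zero] at h4
      refine h4.congr fun N => ?_
      have : ((N : ℝ) + 1) ≠ 0 := by positivity
      push_cast
      field_simp
    rw [Complex.ofReal_one, one_mul] at h3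
    refine h3.congr' ?_
    filter_upwards [eventually_ge_atTop k] with N hN
    rw [hμ N, hcoef k N (by omega)]
  exact tendsto_nhds_unique h1 (h2.mono_left h𝒰1)

end

end Pool.Agent.Helper29.PR
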